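import Mathlib
import Pool.Agent.Helper66.FN.Final

/-! MP_e53968: `3`-extendable graphs with minimum forcing number `n - 2`. -/

namespace Pool.Agent.Results.MP_e53968_co.ThreeExtendable

open Helper66.FN

universe u

/-- Let `n ≥ 4` and let `G` be a graph of order `2n` with a perfect matching in which every three
disjoint edges lie in a perfect matching. Then `f(G) = n - 2` if and only if `G` is not complete
multipartite and the complement of `G` arises from a graph without induced `K₄ - e` and
`K_{3,3} - e` by replacing vertices by cliques. -/
theorem result {V : Type u} [Fintype V] (G : SimpleGraph V) (n : ℕ)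
    (hn : Fintype.card V = 2 * n) (h4 : 4 ≤ n)
    (hpm : ∃ M : G.Subgraph, M.IsPerfectMatching) (hext : ThreeExtendable G) :
    minForcing G = n - 2 ↔ ¬ G.IsCompleteMultipartite ∧ Structured G := by
  classical
  exact minForcing_iff hn h4 hpm hext

end Pool.Agent.Results.MP_e53968_co.ThreeExtendable
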